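import Pool.Agent.Lib.MP_c10acd_nt.Count

/-!
# Additive energy of squares in short intervals

For every `ε > 0` there is a constant `C` such that every finite set `E` of squares `k^2` with
`N ≤ k ≤ N + N^(1-ε)` satisfies `∑_m r_{E+E}(m)^2 ≤ C |E|^2`.

Proof idea.  The energy counts quadruples with `a^2 - c^2 = d^2 - b^2`.  Within one class
(a fixed value `n ≠ 0` of `a^2 - c^2`) all the sums `a + c` divide `n`, and `n` is at most about
`N^(2-ε)`.  A Cauchy-Schwarz argument at each prime shows that the average of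
`log gcd(a+c, d+b) - 1/2 log gcd(a-c, a+c, d-b, d+b)` over the quadruples of a large class is
at least `(1/(2-ε) - o(1)) log N`.  On the other hand
`gcd(a+c, d+b) gcd(a+d, c+b) ≤ (a+b+c+d) gcd(a-c, a+c, d-b, d+b)`, so by the symmetry `c ↔ d`
of the set of all quadruples the average is at most `(1/2 + o(1)) log N`.
-/

namespace Pool.Agent.Results.MP_c10acd_nt.Full

open Finset Pool.Agent.Lib.MP_c10acd_nt

/-- `S_ε(N) = {k² : k ∈ ℤ, N ≤ k ≤ N + N^(1-ε)}`. -/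
def shortSquares (ε : ℝ) (N : ℕ) : Set ℤ :=
  {m | ∃ k : ℤ, (N : ℝ) ≤ k ∧ (k : ℝ) ≤ N + (N : ℝ) ^ (1 - ε) ∧ m = k ^ 2}

/-- `r_{E+E}(m) = #{(a,b) ∈ E × E : a + b = m}`. -/
def rep (E : Finset ℤ) (m : ℤ) : ℕ := ((E ×ˢ E).filter (fun p => p.1 + p.2 = m)).card

theorem card_fiber {ι : Type*} [DecidableEq ι] (X : Finset ι) (h : ι → ℤ) :
    ((((X ×ˢ X).filter (fun q => h q.1 = h q.2)).card : ℕ) : ℝ)
      = ∑ m ∈ X.image h, (((X.filter (fun x => h x = m)).card : ℕ) : ℝ) ^ 2 := by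
  have h0 : ((((X ×ˢ X).filter (fun q => h q.1 = h q.2)).card : ℕ) : ℝ)
      = ∑ q ∈ (X ×ˢ X).filter (fun q => h q.1 = h q.2), (1 : ℝ) := by simp
  rw [h0, Finset.sum_filter, Finset.sum_product]
  rw [← Finset.sum_fiberwise_of_maps_to (t := X.image h) (g := h)
    (fun x hx => Finset.mem_image_of_mem h hx)]
  refine Finset.sum_congr rfl fun n _ => ?_
  have h1 : ∀ x ∈ X.filter (fun x => h x = n), (∑ y ∈ X, if h x = h y then (1 : ℝ) else 0)
      = ((X.filter (fun x => h x = n)).card : ℝ) := by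
    intro x hx
    rw [Finset.mem_filter] at hx
    rw [← Finset.sum_filter, Finset.sum_const, nsmul_eq_mul, mul_one]
    congr 2
    ext y
    simp only [Finset.mem_filter, hx.2]
    constructor
    · rintro ⟨h1, h2⟩; exact ⟨h1, h2.symm⟩
    · rintro ⟨h1, h2⟩; exact ⟨h1, h2.symm⟩
  rw [Finset.sum_congr rfl h1, Finset.sum_const, nsmul_eq_mul, sq]

/-- The energy is a number of quadruples. -/
theorem finsum_rep (K : Finset ℕ) :
    (∑ᶠ m : ℤ, (rep (K.image (fun k : ℕ => (k : ℤ) ^ 2)) m : ℝ) ^ 2)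
      = ((((K ×ˢ K) ×ˢ (K ×ˢ K)).filter (fun q : (ℕ × ℕ) × (ℕ × ℕ) =>
          (q.1.1 : ℤ) ^ 2 + (q.1.2 : ℤ) ^ 2 = (q.2.1 : ℤ) ^ 2 + (q.2.2 : ℤ) ^ 2)).card : ℝ) := by
  set h : ℕ × ℕ → ℤ := fun x => (x.1 : ℤ) ^ 2 + (x.2 : ℤ) ^ 2 with hh
  have hinj : Function.Injective (fun k : ℕ => (k : ℤ) ^ 2) := by
    intro a b hab
    have h2 : a ^ 2 = b ^ 2 := by
      have : (a : ℤ) ^ 2 = (b : ℤ) ^ 2 := hab
      exact_mod_cast this
    exact Nat.pow_left_injective (n := 2) (by norm_num) h2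
  have hrep : ∀ m, rep (K.image (fun k : ℕ => (k : ℤ) ^ 2)) m
      = ((K ×ˢ K).filter (fun x => h x = m)).card := by
    intro m
    unfold rep
    symm
    refine Finset.card_bij (fun x _ => ((x.1 : ℤ) ^ 2, (x.2 : ℤ) ^ 2)) ?_ ?_ ?_
    · rintro ⟨a, b⟩ hx
      simp only [Finset.mem_filter, Finset.mem_product, Finset.mem_image] at hx ⊢
      exact ⟨⟨⟨a, hx.1.1, rfl⟩, ⟨b, hx.1.2, rfl⟩⟩, hx.2⟩
    · rintro ⟨a, b⟩ _ ⟨c, d⟩ _ heq
      have h1 := (Prod.mk.inj heq).1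
      have h2 := (Prod.mk.inj heq).2
      exact Prod.ext (hinj h1) (hinj h2)
    · rintro ⟨s, t⟩ hst
      simp only [Finset.mem_filter, Finset.mem_product, Finset.mem_image] at hst
      obtain ⟨⟨⟨a, ha, rfl⟩, ⟨b, hb, rfl⟩⟩, hm⟩ := hst
      refine ⟨(a, b), ?_, rfl⟩
      simp only [Finset.mem_filter, Finset.mem_product]
      exact ⟨⟨ha, hb⟩, hm⟩
  have hcf := card_fiber (K ×ˢ K) h
  rw [hcf]
  rw [finsum_eq_sum_of_support_subset (s := (K ×ˢ K).image h)]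
  · refine Finset.sum_congr rfl fun m _ => ?_
    rw [hrep]
  · intro m hm
    rw [Function.mem_support] at hm
    rw [Finset.mem_coe, Finset.mem_image]
    have h1 : ((K ×ˢ K).filter (fun x => h x = m)).card ≠ 0 := by
      intro h0
      apply hm
      rw [hrep, h0]; simp
    obtain ⟨x, hx⟩ := Finset.card_ne_zero.mp h1
    rw [Finset.mem_filter] at hx
    exact ⟨x, hx.1, hx.2⟩

theorem card_energy_le (K : Finset ℕ) :
    (((K ×ˢ K) ×ˢ (K ×ˢ K)).filter (fun q : (ℕ × ℕ) × (ℕ × ℕ) =>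
          (q.1.1 : ℤ) ^ 2 + (q.1.2 : ℤ) ^ 2 = (q.2.1 : ℤ) ^ 2 + (q.2.2 : ℤ) ^ 2)).card
      ≤ K.card ^ 2 + (QQ K).card := by
  have hsq : ∀ a b : ℕ, (a : ℤ) ^ 2 = (b : ℤ) ^ 2 → a = b := by
    intro a b hab
    have h2 : a ^ 2 = b ^ 2 := by exact_mod_cast hab
    exact Nat.pow_left_injective (n := 2) (by norm_num) h2
  rw [← Finset.card_filter_add_card_filter_not (fun q : (ℕ × ℕ) × (ℕ × ℕ) => q.1.1 = q.2.1)]
  refine Nat.add_le_add ?_ ?_
  · rw [sq, ← Finset.card_product]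
    refine Finset.card_le_card_of_injOn (fun q => q.1) ?_ ?_
    · intro q hq
      have h1 := (Finset.mem_filter.mp (Finset.mem_filter.mp (Finset.mem_coe.mp hq)).1).1
      exact Finset.mem_coe.mpr (Finset.mem_product.mp h1).1
    · rintro ⟨⟨a, b⟩, ⟨c, d⟩⟩ hq ⟨⟨a', b'⟩, ⟨c', d'⟩⟩ hq' heq
      simp only [Finset.coe_filter, Finset.mem_filter, Finset.mem_product,
        Set.mem_ofPred_eq] at hq hq'
      have h1 : (a, b) = (a', b') := heq
      obtain ⟨rfl, rfl⟩ := Prod.mk.inj h1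
      obtain ⟨⟨_, h2⟩, rfl⟩ := hq
      obtain ⟨⟨_, h3⟩, rfl⟩ := hq'
      have h4 : b = d := hsq _ _ (by linarith)
      have h5 : b = d' := hsq _ _ (by linarith)
      rw [← h4, ← h5]
  · refine Finset.card_le_card_of_injOn
      (fun q => ((q.1.1, q.2.1), (q.2.2, q.1.2))) ?_ ?_
    · rintro ⟨⟨a, b⟩, ⟨c, d⟩⟩ hq
      simp only [Finset.coe_filter, Finset.mem_filter, Finset.mem_product,
        Set.mem_ofPred_eq] at hq
      obtain ⟨⟨⟨⟨ha, hb⟩, ⟨hc, hd⟩⟩, h1⟩, hac⟩ := hq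
      rw [Finset.mem_coe]
      unfold QQ PP ff
      simp only [Finset.mem_filter, Finset.mem_product]
      refine ⟨⟨⟨⟨ha, hc⟩, hac⟩, ⟨⟨hd, hb⟩, ?_⟩⟩, by linarith⟩
      rintro rfl
      exact hac (hsq _ _ (by linarith))
    · rintro ⟨⟨a, b⟩, ⟨c, d⟩⟩ _ ⟨⟨a', b'⟩, ⟨c', d'⟩⟩ _ heq
      have h1 := Prod.mk.inj heq
      obtain ⟨h2, h3⟩ := h1
      obtain ⟨rfl, rfl⟩ := Prod.mk.inj h2
      obtain ⟨rfl, rfl⟩ := Prod.mk.inj h3
      rfl

theorem final_real {ε l c S k2 : ℝ} (hε : 0 < ε) (hε1 : ε ≤ 1) (hc0 : 0 < c) (hc1 : c ≤ 1)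
    (hl1 : 1 ≤ l) (hl : 16 ≤ ε * l) (hS0 : 0 ≤ S) (hk0 : 0 ≤ k2)
    (h1 : (c + l) ^ 2 * S
      ≤ (2 * c + (2 - ε) * l) * ((2 * c + l) * k2 + (1 / 2) * (3 * c + l) * S)) :
    S ≤ 48 / ε * k2 := by
  -- coefficient of S
  have h2 : ε * l ^ 2 / 4 ≤ (c + l) ^ 2 - (1 / 2) * ((2 * c + (2 - ε) * l) * (3 * c + l)) := by
    have e1 : (c + l) ^ 2 - (1 / 2) * ((2 * c + (2 - ε) * l) * (3 * c + l))
        = ε * l ^ 2 / 2 - 2 * (c * l) - 2 * c ^ 2 + (3 / 2) * (c * ε * l) := by ring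
    rw [e1]
    have e2 : 16 * l ≤ ε * l ^ 2 := by
      have := mul_le_mul_of_nonneg_right hl (by linarith : (0 : ℝ) ≤ l)
      linarith [this, (by ring : ε * l * l = ε * l ^ 2)]
    have e3 : c * l ≤ l := by
      have := mul_le_mul_of_nonneg_right hc1 (by linarith : (0 : ℝ) ≤ l)
      linarith
    have e4 : c ^ 2 ≤ l := by
      have : c ^ 2 ≤ 1 := pow_le_one₀ hc0.le hc1
      linarith
    have e5 : 0 ≤ c * ε * l := by positivity
    linarith
  have h3 : (2 * c + (2 - ε) * l) * (2 * c + l) ≤ 12 * l ^ 2 := by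
    have e0 : 0 ≤ ε * l := by positivity
    have e1 : 2 * c + (2 - ε) * l ≤ 4 * l := by linarith
    have e2 : 2 * c + l ≤ 3 * l := by linarith
    have e3 : (2 * c + (2 - ε) * l) * (2 * c + l) ≤ (4 * l) * (3 * l) :=
      mul_le_mul e1 e2 (by linarith) (by linarith)
    linarith [(by ring : (4 * l) * (3 * l) = 12 * l ^ 2)]
  have h4 : ε * l ^ 2 / 4 * S ≤ 12 * l ^ 2 * k2 := by
    have e1 := mul_le_mul_of_nonneg_right h2 hS0
    have e2 := mul_le_mul_of_nonneg_right h3 hk0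
    have e3 : (2 * c + (2 - ε) * l) * ((2 * c + l) * k2 + (1 / 2) * (3 * c + l) * S)
        = (2 * c + (2 - ε) * l) * (2 * c + l) * k2
          + (1 / 2) * ((2 * c + (2 - ε) * l) * (3 * c + l)) * S := by ring
    rw [e3] at h1
    linarith [(by ring : ((c + l) ^ 2 - (1 / 2) * ((2 * c + (2 - ε) * l) * (3 * c + l))) * S
      = (c + l) ^ 2 * S - (1 / 2) * ((2 * c + (2 - ε) * l) * (3 * c + l)) * S)]
  have hl2 : 0 < l ^ 2 := by positivity
  have h5 : ε * S ≤ 48 * k2 := by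
    have e1 : l ^ 2 * (ε * S) ≤ l ^ 2 * (48 * k2) := by
      linarith [(by ring : ε * l ^ 2 / 4 * S = (l ^ 2 * (ε * S)) / 4),
        (by ring : 12 * l ^ 2 * k2 = (l ^ 2 * (48 * k2)) / 4)]
    exact le_of_mul_le_mul_left e1 hl2
  rw [div_mul_eq_mul_div, le_div_iff₀ hε]
  linarith

/-- The main estimate for large `N`. -/
theorem card_QQ_le {ε : ℝ} (hε : 0 < ε) (hε1 : ε ≤ 1) {N : ℕ} (hN : 1 ≤ N)
    (hl1 : 1 ≤ Real.log N) (hl : 16 ≤ ε * Real.log N) (K : Finset ℕ)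
    (hK : ∀ k ∈ K, N ≤ k ∧ (k : ℝ) ≤ N + (N : ℝ) ^ (1 - ε)) :
    ((QQ K).card : ℝ) ≤ 48 / ε * (K.card : ℝ) ^ 2 := by
  set l := Real.log N with hldef
  set c := Real.log 2 with hc
  have hN1 : (1 : ℝ) ≤ N := by exact_mod_cast hN
  have hN0 : (0 : ℝ) < N := by linarith
  have hc0 : 0 < c := Real.log_pos (by norm_num)
  have hc1 : c ≤ 1 := by
    have := Real.log_two_lt_d9
    rw [hc]; linarith
  have hK0 : ∀ k ∈ K, 0 < k := fun k hk => lt_of_lt_of_le (by omega) (hK k hk).1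
  have hpow0 : 0 < (N : ℝ) ^ (1 - ε) := Real.rpow_pos_of_pos hN0 _
  have hpowN : (N : ℝ) ^ (1 - ε) ≤ N := by
    calc (N : ℝ) ^ (1 - ε) ≤ (N : ℝ) ^ (1 : ℝ) :=
          Real.rpow_le_rpow_of_exponent_le hN1 (by linarith)
      _ = N := Real.rpow_one _
  have hk2 : ∀ k ∈ K, (k : ℝ) ≤ 2 * N := fun k hk => by
    have := (hK k hk).2
    linarith
  have hkN : ∀ k ∈ K, (N : ℝ) ≤ k := fun k hk => by exact_mod_cast (hK k hk).1
  have hPP : ∀ x ∈ PP K, x.1 ∈ K ∧ x.2 ∈ K ∧ x.1 ≠ x.2 := by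
    intro x hx
    unfold PP at hx
    rw [Finset.mem_filter, Finset.mem_product] at hx
    exact ⟨hx.1.1, hx.1.2, hx.2⟩
  -- logs
  have log2N : Real.log (2 * N) = c + l := Real.log_mul (by norm_num) hN0.ne'
  have log4 : Real.log 4 = 2 * c := by
    rw [show (4 : ℝ) = 2 ^ 2 by norm_num, Real.log_pow]; push_cast; ring
  have log8 : Real.log 8 = 3 * c := by
    rw [show (8 : ℝ) = 2 ^ 3 by norm_num, Real.log_pow]; push_cast; ring
  have log4N : Real.log (4 * N) = 2 * c + l := by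
    rw [Real.log_mul (by norm_num) hN0.ne', log4]
  have log8N : Real.log (8 * N) = 3 * c + l := by
    rw [Real.log_mul (by norm_num) hN0.ne', log8]
  have hV : ∀ x ∈ PP K, c + l ≤ Real.log (vv x) := by
    intro x hx
    obtain ⟨h1, h2, _⟩ := hPP x hx
    rw [← log2N]
    refine Real.log_le_log (by positivity) ?_
    unfold vv
    push_cast
    have := hkN _ h1
    have := hkN _ h2
    linarith
  have hU : ∀ x ∈ PP K, Real.log (vv x) ≤ 2 * c + l := by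
    intro x hx
    obtain ⟨h1, h2, _⟩ := hPP x hx
    rw [← log4N]
    have h3 := hk2 _ h1
    have h4 := hk2 _ h2
    have h5 := hkN _ h1
    have h6 := hkN _ h2
    refine Real.log_le_log ?_ ?_
    · unfold vv
      push_cast
      linarith
    · unfold vv
      push_cast
      linarith
  have hL : ∀ x ∈ PP K, Real.log ((ff x).natAbs : ℝ) ≤ 2 * c + (2 - ε) * l := by
    intro x hx
    obtain ⟨h1, h2, h3⟩ := hPP x hx
    rw [← uu_mul_vv]
    have hu0 : 0 < uu x := by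
      unfold uu
      rw [Int.natAbs_pos, sub_ne_zero]
      exact_mod_cast h3
    have hu : (uu x : ℝ) ≤ (N : ℝ) ^ (1 - ε) := by
      unfold uu
      rw [Nat.cast_natAbs]
      push_cast
      rw [abs_le]
      have h4 := hkN _ h1
      have h5 := hkN _ h2
      have h6 := (hK _ h1).2
      have h7 := (hK _ h2).2
      constructor <;> linarith
    have hv : (vv x : ℝ) ≤ 4 * N := by
      unfold vv
      push_cast
      have h4 := hk2 _ h1
      have h5 := hk2 _ h2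
      linarith
    have hv0 : (0 : ℝ) < vv x := by
      unfold vv
      push_cast
      have h4 := hkN _ h1
      have h5 := hkN _ h2
      linarith
    have hu0' : (0 : ℝ) < uu x := by exact_mod_cast hu0
    rw [Nat.cast_mul, Real.log_mul hu0'.ne' hv0.ne']
    have g1 : Real.log (uu x) ≤ (1 - ε) * l := by
      have := Real.log_le_log hu0' hu
      rwa [Real.log_rpow hN0] at this
    have g2 : Real.log (vv x) ≤ 2 * c + l := hU x hx
    linarith
  have hB : ∀ a ∈ K, ∀ b ∈ K, ∀ c' ∈ K, ∀ d ∈ K,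
      Real.log ((a + b + c' + d : ℕ) : ℝ) ≤ 3 * c + l := by
    intro a ha b hb c' hc' d hd
    rw [← log8N]
    have h1 := hk2 _ ha
    have h2 := hk2 _ hb
    have h3 := hk2 _ hc'
    have h4 := hk2 _ hd
    have h5 := hkN _ ha
    have h6 := hkN _ hb
    have h7 := hkN _ hc'
    have h8 := hkN _ hd
    refine Real.log_le_log ?_ ?_
    · push_cast; linarith
    · push_cast; linarith
  have lb := lower_bound (K := K) (V := c + l) (L := 2 * c + (2 - ε) * l) (by linarith) hK0 hV hL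
  have ub := upper_bound (K := K) (U := 2 * c + l) (B := 3 * c + l) hK0 hU hB
    (by linarith) (by linarith)
  set S := ((QQ K).card : ℝ) with hS
  set k2 := (K.card : ℝ) ^ 2 with hk2'
  have hS0 : 0 ≤ S := by rw [hS]; positivity
  have hk0 : 0 ≤ k2 := by rw [hk2']; positivity
  have hL0 : 0 ≤ 2 * c + (2 - ε) * l := by
    have : 0 ≤ (2 - ε) * l := mul_nonneg (by linarith) (by linarith)
    linarith
  have h1 : (c + l) ^ 2 * S
      ≤ (2 * c + (2 - ε) * l) * ((2 * c + l) * k2 + (1 / 2) * (3 * c + l) * S) :=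
    lb.trans (mul_le_mul_of_nonneg_left ub hL0)
  exact final_real hε hε1 hc0 hc1 hl1 hl hS0 hk0 h1

/-- **Additive energy of squares in short intervals.** For every `ε > 0` there is a constant `C`
with `∑_m r_{E+E}(m)² ≤ C |E|²` for all integers `N ≥ 1` and all finite sets `E` of squares of
integers of the interval `[N, N + N^(1-ε)]`. -/
theorem result : ∀ ε : ℝ, 0 < ε → ∃ C : ℝ, ∀ N : ℕ, 1 ≤ N → ∀ E : Finset ℤ,
    (E : Set ℤ) ⊆ shortSquares ε N →
      (∑ᶠ m : ℤ, (rep E m : ℝ) ^ 2) ≤ C * (E.card : ℝ) ^ 2 := by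
  intro ε' hε'
  set ε := min ε' 1 with hεdef
  have hε : 0 < ε := lt_min hε' one_pos
  have hε1 : ε ≤ 1 := min_le_right _ _
  set N₁ := Real.exp (16 / ε + 1) with hN₁
  refine ⟨1 + 48 / ε + (2 * N₁ + 1) ^ 2, ?_⟩
  intro N hN E hE
  have hN1 : (1 : ℝ) ≤ N := by exact_mod_cast hN
  have hN0 : (0 : ℝ) < N := by linarith
  -- pass to the set of roots
  have hE' : (E : Set ℤ) ⊆ (fun k : ℕ => (k : ℤ) ^ 2) ''
      {k : ℕ | N ≤ k ∧ (k : ℝ) ≤ N + (N : ℝ) ^ (1 - ε)} := by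
    intro m hm
    obtain ⟨k, hk1, hk2, rfl⟩ := hE hm
    have hk0 : (0 : ℝ) ≤ (k : ℝ) := by linarith
    have hk0' : 0 ≤ k := by exact_mod_cast hk0
    obtain ⟨j, rfl⟩ := Int.eq_ofNat_of_zero_le hk0'
    refine ⟨j, ⟨?_, ?_⟩, rfl⟩
    · have : (N : ℝ) ≤ (j : ℝ) := by simpa using hk1
      exact_mod_cast this
    · have h1 : (j : ℝ) ≤ N + (N : ℝ) ^ (1 - ε') := by simpa using hk2
      have h2 : (N : ℝ) ^ (1 - ε') ≤ (N : ℝ) ^ (1 - ε) :=
        Real.rpow_le_rpow_of_exponent_le hN1 (by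
          have : ε ≤ ε' := min_le_left _ _
          linarith)
      linarith
  obtain ⟨K, hKs, hKE⟩ := Finset.subset_set_image_iff.mp hE'
  have hK : ∀ k ∈ K, N ≤ k ∧ (k : ℝ) ≤ N + (N : ℝ) ^ (1 - ε) := fun k hk => hKs hk
  have hinj : Function.Injective (fun k : ℕ => (k : ℤ) ^ 2) := by
    intro a b hab
    have h2 : a ^ 2 = b ^ 2 := by
      have : (a : ℤ) ^ 2 = (b : ℤ) ^ 2 := hab
      exact_mod_cast this
    exact Nat.pow_left_injective (n := 2) (by norm_num) h2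
  have hcard : E.card = K.card := by
    rw [← hKE]; exact Finset.card_image_of_injective K hinj
  rw [hcard, ← hKE, finsum_rep]
  have hk0 : 0 ≤ (K.card : ℝ) ^ 2 := by positivity
  by_cases hcase : 1 ≤ Real.log N ∧ 16 ≤ ε * Real.log N
  · have h1 : ((((K ×ˢ K) ×ˢ (K ×ˢ K)).filter (fun q : (ℕ × ℕ) × (ℕ × ℕ) =>
          (q.1.1 : ℤ) ^ 2 + (q.1.2 : ℤ) ^ 2 = (q.2.1 : ℤ) ^ 2 + (q.2.2 : ℤ) ^ 2)).card : ℝ)
          ≤ (K.card : ℝ) ^ 2 + ((QQ K).card : ℝ) := by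
      exact_mod_cast card_energy_le K
    have h2 := card_QQ_le hε hε1 hN hcase.1 hcase.2 K hK
    have h3 : 0 ≤ (2 * N₁ + 1) ^ 2 * (K.card : ℝ) ^ 2 := by positivity
    nlinarith
  · -- small N
    have hNle : (N : ℝ) ≤ N₁ := by
      have h1 : Real.log N ≤ 16 / ε + 1 := by
        by_contra hcon
        push Not at hcon
        apply hcase
        have h2 : 0 < 16 / ε := by positivity
        refine ⟨by linarith, ?_⟩
        have h3 : 16 / ε ≤ Real.log N := by linarith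
        rw [div_le_iff₀ hε] at h3
        linarith
      rw [hN₁, ← Real.exp_log hN0]
      exact Real.exp_le_exp.mpr h1
    have hKcard : (K.card : ℝ) ≤ 2 * N₁ + 1 := by
      have h1 : K ⊆ Finset.range (2 * N + 1) := by
        intro k hk
        rw [Finset.mem_range]
        have h2 := (hK k hk).2
        have h3 : (N : ℝ) ^ (1 - ε) ≤ N := by
          calc (N : ℝ) ^ (1 - ε) ≤ (N : ℝ) ^ (1 : ℝ) :=
                Real.rpow_le_rpow_of_exponent_le hN1 (by linarith)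
            _ = N := Real.rpow_one _
        have h4 : (k : ℝ) ≤ 2 * N := by linarith
        have h5 : k ≤ 2 * N := by exact_mod_cast h4
        omega
      have h2 := Finset.card_le_card h1
      rw [Finset.card_range] at h2
      have h3 : (K.card : ℝ) ≤ 2 * N + 1 := by exact_mod_cast h2
      linarith
    have h1 : ((((K ×ˢ K) ×ˢ (K ×ˢ K)).filter (fun q : (ℕ × ℕ) × (ℕ × ℕ) =>
          (q.1.1 : ℤ) ^ 2 + (q.1.2 : ℤ) ^ 2 = (q.2.1 : ℤ) ^ 2 + (q.2.2 : ℤ) ^ 2)).card : ℝ)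
          ≤ (K.card : ℝ) ^ 2 * (K.card : ℝ) ^ 2 := by
      have h2 := Finset.card_filter_le ((K ×ˢ K) ×ˢ (K ×ˢ K)) (fun q : (ℕ × ℕ) × (ℕ × ℕ) =>
          (q.1.1 : ℤ) ^ 2 + (q.1.2 : ℤ) ^ 2 = (q.2.1 : ℤ) ^ 2 + (q.2.2 : ℤ) ^ 2)
      rw [Finset.card_product, Finset.card_product] at h2
      have h3 : ((((K ×ˢ K) ×ˢ (K ×ˢ K)).filter (fun q : (ℕ × ℕ) × (ℕ × ℕ) =>
          (q.1.1 : ℤ) ^ 2 + (q.1.2 : ℤ) ^ 2 = (q.2.1 : ℤ) ^ 2 + (q.2.2 : ℤ) ^ 2)).card : ℝ)
          ≤ ((K.card * K.card * (K.card * K.card) : ℕ) : ℝ) := by exact_mod_cast h2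
      push_cast at h3
      nlinarith
    have h2 : (K.card : ℝ) ^ 2 ≤ (2 * N₁ + 1) ^ 2 :=
      pow_le_pow_left₀ (by positivity) hKcard 2
    have h3 : 0 ≤ 48 / ε := by positivity
    have h4 : (K.card : ℝ) ^ 2 * (K.card : ℝ) ^ 2 ≤ (2 * N₁ + 1) ^ 2 * (K.card : ℝ) ^ 2 :=
      mul_le_mul_of_nonneg_right h2 hk0
    have h5 : 0 ≤ (1 + 48 / ε) * (K.card : ℝ) ^ 2 := by positivity
    nlinarith

end Pool.Agent.Results.MP_c10acd_nt.Full
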